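import Mathlib

/-!
# A cubic graph on 90 vertices (data and the local estimates)

The graph comes from an unsatisfiable set of 36 clauses with three literals in 27 variables, every
literal occurring in exactly two clauses: the vertices are the 54 literals and the 36 clauses, a
literal is joined to its negation and to the two clauses which contain it.
The formula consists of four copies of a gadget with 6 variables and 9 clauses and of three more
variables `X, Y, Z`.
-/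

set_option autoImplicit false

namespace Pool.Agent.X266.IDM

/-- The vertices: `inl (g, j)` is the vertex `j` of the gadget `g` (`j < 12`: literals,
`j = 12, …, 20`: clauses), `inr t` are the six literals of `X, Y, Z`. -/
abbrev W := (Fin 4 × Fin 21) ⊕ Fin 6

/-- The literal of a global variable used twice by the gadget `g`. -/
def xe : Fin 4 → Fin 6 := ![0, 1, 4, 5]

/-- The literal of `Y` used once by the gadget `g`. -/
def ye : Fin 4 → Fin 6 := ![2, 2, 3, 3]

/-- The neighbours inside a gadget; `21` and `22` stand for the two global literals. -/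
def tab : Fin 21 → Fin 3 → ℕ :=
  ![![1, 12, 20], ![0, 13, 18], ![3, 14, 15], ![2, 12, 13], ![5, 12, 14], ![4, 17, 19],
    ![7, 16, 19], ![6, 17, 18], ![9, 14, 19], ![8, 15, 20], ![11, 13, 15], ![10, 18, 20],
    ![0, 4, 3], ![10, 3, 1], ![8, 2, 4], ![10, 9, 2], ![22, 6, 21], ![7, 21, 5],
    ![11, 7, 1], ![6, 5, 8], ![9, 0, 11]]

/-- The neighbours of the global literals. -/
def top : Fin 6 → Fin 3 → W :=
  ![![.inr 1, .inl (0, 16), .inl (0, 17)], ![.inr 0, .inl (1, 16), .inl (1, 17)],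
    ![.inr 3, .inl (0, 16), .inl (1, 16)], ![.inr 2, .inl (2, 16), .inl (3, 16)],
    ![.inr 5, .inl (2, 16), .inl (2, 17)], ![.inr 4, .inl (3, 16), .inl (3, 17)]]

/-- A vertex of the gadget `g` from its code. -/
def dec (g : Fin 4) (c : ℕ) : W :=
  if h : c < 21 then .inl (g, ⟨c, h⟩) else if c = 21 then .inr (xe g) else .inr (ye g)

/-- The three neighbours of a vertex. -/
def nb : W → Fin 3 → W
  | .inl (g, j), i => dec g (tab j i)
  | .inr t, i => top t i

theorem nb_symm : ∀ v : W, ∀ i : Fin 3, ∃ j : Fin 3, nb (nb v i) j = v := by decide +kernel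

theorem nb_ne : ∀ v : W, ∀ i : Fin 3, nb v i ≠ v := by decide +kernel

theorem nb_inj : ∀ v : W, ∀ i j : Fin 3, nb v i = nb v j → i = j := by decide +kernel

/-- The equations of a maximal independent set. -/
def Eqs (f : W → Bool) : Prop := ∀ v, f v = !(f (nb v 0) || f (nb v 1) || f (nb v 2))

/-- The hypotheses of the local estimate. -/
def lh (p1 n1 p2 n2 p3 n3 p4 n4 p5 n5 p6 n6 X Y : Bool) : Bool :=
  decide (p1 = !(n1 || !(p1 || p3 || n2) || !(n5 || p1 || n6))) &&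
  decide (n1 = !(p1 || !(p6 || n2 || n1) || !(n6 || n4 || n1))) &&
  decide (p2 = !(n2 || !(p5 || p2 || p3) || !(p6 || n5 || p2))) &&
  decide (n2 = !(p2 || !(p1 || p3 || n2) || !(p6 || n2 || n1))) &&
  decide (p3 = !(n3 || !(p1 || p3 || n2) || !(p5 || p2 || p3))) &&
  decide (n3 = !(p3 || !(n4 || X || n3) || !(p4 || n3 || p5))) &&
  decide (p4 = !(n4 || !(Y || p4 || X) || !(p4 || n3 || p5))) &&
  decide (n4 = !(p4 || !(n4 || X || n3) || !(n6 || n4 || n1))) &&
  decide (p5 = !(n5 || !(p5 || p2 || p3) || !(p4 || n3 || p5))) &&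
  decide (n5 = !(p5 || !(p6 || n5 || p2) || !(n5 || p1 || n6))) &&
  decide (p6 = !(n6 || !(p6 || n2 || n1) || !(p6 || n5 || p2))) &&
  decide (n6 = !(p6 || !(n6 || n4 || n1) || !(n5 || p1 || n6)))

/-- The local estimate. -/
def lc (p1 n1 p2 n2 p3 n3 p4 n4 p5 n5 p6 n6 X Y : Bool) : Bool :=
  decide (6 + (((!X && !Y) || !(Y || p4 || X) || !(n4 || X || n3)).toNat) ≤
      p1.toNat + n1.toNat + p2.toNat + n2.toNat + p3.toNat + n3.toNat + p4.toNat + n4.toNat +
      p5.toNat + n5.toNat + p6.toNat + n6.toNat +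
      (!(p1 || p3 || n2)).toNat + (!(p6 || n2 || n1)).toNat + (!(p5 || p2 || p3)).toNat +
      (!(p6 || n5 || p2)).toNat + (!(Y || p4 || X)).toNat + (!(n4 || X || n3)).toNat +
      (!(n6 || n4 || n1)).toNat + (!(p4 || n3 || p5)).toNat + (!(n5 || p1 || n6)).toNat)

theorem lc_all : ∀ p1 n1 p2 n2 p3 n3 p4 n4 p5 n5 p6 n6 X Y : Bool,
    (!lh p1 n1 p2 n2 p3 n3 p4 n4 p5 n5 p6 n6 X Y || lc p1 n1 p2 n2 p3 n3 p4 n4 p5 n5 p6 n6 X Y) =
      true := by
  decide +kernel

theorem local_check (p1 n1 p2 n2 p3 n3 p4 n4 p5 n5 p6 n6 X Y : Bool)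
    (h0 : p1 = !(n1 || !(p1 || p3 || n2) || !(n5 || p1 || n6)))
    (h1 : n1 = !(p1 || !(p6 || n2 || n1) || !(n6 || n4 || n1)))
    (h2 : p2 = !(n2 || !(p5 || p2 || p3) || !(p6 || n5 || p2)))
    (h3 : n2 = !(p2 || !(p1 || p3 || n2) || !(p6 || n2 || n1)))
    (h4 : p3 = !(n3 || !(p1 || p3 || n2) || !(p5 || p2 || p3)))
    (h5 : n3 = !(p3 || !(n4 || X || n3) || !(p4 || n3 || p5)))
    (h6 : p4 = !(n4 || !(Y || p4 || X) || !(p4 || n3 || p5)))
    (h7 : n4 = !(p4 || !(n4 || X || n3) || !(n6 || n4 || n1)))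
    (h8 : p5 = !(n5 || !(p5 || p2 || p3) || !(p4 || n3 || p5)))
    (h9 : n5 = !(p5 || !(p6 || n5 || p2) || !(n5 || p1 || n6)))
    (h10 : p6 = !(n6 || !(p6 || n2 || n1) || !(p6 || n5 || p2)))
    (h11 : n6 = !(p6 || !(n6 || n4 || n1) || !(n5 || p1 || n6))) :
    6 + (((!X && !Y) || !(Y || p4 || X) || !(n4 || X || n3)).toNat) ≤
      p1.toNat + n1.toNat + p2.toNat + n2.toNat + p3.toNat + n3.toNat + p4.toNat + n4.toNat +
      p5.toNat + n5.toNat + p6.toNat + n6.toNat +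
      (!(p1 || p3 || n2)).toNat + (!(p6 || n2 || n1)).toNat + (!(p5 || p2 || p3)).toNat +
      (!(p6 || n5 || p2)).toNat + (!(Y || p4 || X)).toNat + (!(n4 || X || n3)).toNat +
      (!(n6 || n4 || n1)).toNat + (!(p4 || n3 || p5)).toNat + (!(n5 || p1 || n6)).toNat := by
  have hh : lh p1 n1 p2 n2 p3 n3 p4 n4 p5 n5 p6 n6 X Y = true := by
    unfold lh
    rw [decide_eq_true h0, decide_eq_true h1, decide_eq_true h2, decide_eq_true h3,
      decide_eq_true h4, decide_eq_true h5, decide_eq_true h6, decide_eq_true h7,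
      decide_eq_true h8, decide_eq_true h9, decide_eq_true h10, decide_eq_true h11]
    rfl
  have h := lc_all p1 n1 p2 n2 p3 n3 p4 n4 p5 n5 p6 n6 X Y
  rw [hh] at h
  exact of_decide_eq_true h

/-- The estimate for the global variables. -/
def tc (X X' Y Y' Z Z' a0 b0 a1 b1 a2 b2 a3 b3 : Bool) : Bool :=
  !(decide (X = !(X' || a0 || b0)) &&
    decide (X' = !(X || a1 || b1)) &&
    decide (Y = !(Y' || a0 || a1)) &&
    decide (Y' = !(Y || a2 || a3)) &&
    decide (Z = !(Z' || a2 || b2)) &&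
    decide (Z' = !(Z || a3 || b3))) ||
  decide (4 ≤ ((!X && !Y) || a0 || b0).toNat + ((!X' && !Y) || a1 || b1).toNat +
      ((!Z && !Y') || a2 || b2).toNat + ((!Z' && !Y') || a3 || b3).toNat +
      (X.toNat + X'.toNat + Y.toNat + Y'.toNat + Z.toNat + Z'.toNat))

theorem tc_all : ∀ X X' Y Y' Z Z' a0 b0 a1 b1 a2 b2 a3 b3 : Bool,
    tc X X' Y Y' Z Z' a0 b0 a1 b1 a2 b2 a3 b3 = true := by
  decide +kernel

theorem top_check (X X' Y Y' Z Z' a0 b0 a1 b1 a2 b2 a3 b3 : Bool)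
    (h0 : X = !(X' || a0 || b0))
    (h1 : X' = !(X || a1 || b1))
    (h2 : Y = !(Y' || a0 || a1))
    (h3 : Y' = !(Y || a2 || a3))
    (h4 : Z = !(Z' || a2 || b2))
    (h5 : Z' = !(Z || a3 || b3)) :
    4 ≤ ((!X && !Y) || a0 || b0).toNat + ((!X' && !Y) || a1 || b1).toNat +
      ((!Z && !Y') || a2 || b2).toNat + ((!Z' && !Y') || a3 || b3).toNat +
      (X.toNat + X'.toNat + Y.toNat + Y'.toNat + Z.toNat + Z'.toNat) := by
  have h := tc_all X X' Y Y' Z Z' a0 b0 a1 b1 a2 b2 a3 b3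
  unfold tc at h
  rw [decide_eq_true h0, decide_eq_true h1, decide_eq_true h2, decide_eq_true h3,
    decide_eq_true h4, decide_eq_true h5] at h
  exact of_decide_eq_true h

theorem gadget (f : W → Bool) (hE : Eqs f) (g : Fin 4) :
    6 + ((!f (.inr (xe g)) && !f (.inr (ye g))) || f (.inl (g, 16)) || f (.inl (g, 17))).toNat ≤
      ∑ j : Fin 21, (f (.inl (g, j))).toNat := by
  have e0 : f (.inl (g, 0)) = !(f (.inl (g, 1)) || f (.inl (g, 12)) || f (.inl (g, 20))) := hE _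
  have e1 : f (.inl (g, 1)) = !(f (.inl (g, 0)) || f (.inl (g, 13)) || f (.inl (g, 18))) := hE _
  have e2 : f (.inl (g, 2)) = !(f (.inl (g, 3)) || f (.inl (g, 14)) || f (.inl (g, 15))) := hE _
  have e3 : f (.inl (g, 3)) = !(f (.inl (g, 2)) || f (.inl (g, 12)) || f (.inl (g, 13))) := hE _
  have e4 : f (.inl (g, 4)) = !(f (.inl (g, 5)) || f (.inl (g, 12)) || f (.inl (g, 14))) := hE _
  have e5 : f (.inl (g, 5)) = !(f (.inl (g, 4)) || f (.inl (g, 17)) || f (.inl (g, 19))) := hE _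
  have e6 : f (.inl (g, 6)) = !(f (.inl (g, 7)) || f (.inl (g, 16)) || f (.inl (g, 19))) := hE _
  have e7 : f (.inl (g, 7)) = !(f (.inl (g, 6)) || f (.inl (g, 17)) || f (.inl (g, 18))) := hE _
  have e8 : f (.inl (g, 8)) = !(f (.inl (g, 9)) || f (.inl (g, 14)) || f (.inl (g, 19))) := hE _
  have e9 : f (.inl (g, 9)) = !(f (.inl (g, 8)) || f (.inl (g, 15)) || f (.inl (g, 20))) := hE _
  have e10 : f (.inl (g, 10)) = !(f (.inl (g, 11)) || f (.inl (g, 13)) || f (.inl (g, 15))) :=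
    hE _
  have e11 : f (.inl (g, 11)) = !(f (.inl (g, 10)) || f (.inl (g, 18)) || f (.inl (g, 20))) :=
    hE _
  have c12 : f (.inl (g, 12)) = !(f (.inl (g, 0)) || f (.inl (g, 4)) || f (.inl (g, 3))) := hE _
  have c13 : f (.inl (g, 13)) = !(f (.inl (g, 10)) || f (.inl (g, 3)) || f (.inl (g, 1))) := hE _
  have c14 : f (.inl (g, 14)) = !(f (.inl (g, 8)) || f (.inl (g, 2)) || f (.inl (g, 4))) := hE _
  have c15 : f (.inl (g, 15)) = !(f (.inl (g, 10)) || f (.inl (g, 9)) || f (.inl (g, 2))) := hE _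
  have c16 : f (.inl (g, 16)) = !(f (.inr (ye g)) || f (.inl (g, 6)) || f (.inr (xe g))) := hE _
  have c17 : f (.inl (g, 17)) = !(f (.inl (g, 7)) || f (.inr (xe g)) || f (.inl (g, 5))) := hE _
  have c18 : f (.inl (g, 18)) = !(f (.inl (g, 11)) || f (.inl (g, 7)) || f (.inl (g, 1))) := hE _
  have c19 : f (.inl (g, 19)) = !(f (.inl (g, 6)) || f (.inl (g, 5)) || f (.inl (g, 8))) := hE _
  have c20 : f (.inl (g, 20)) = !(f (.inl (g, 9)) || f (.inl (g, 0)) || f (.inl (g, 11))) := hE _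
  have hs : ∑ j : Fin 21, (f (.inl (g, j))).toNat =
      (f (.inl (g, 0))).toNat + (f (.inl (g, 1))).toNat + (f (.inl (g, 2))).toNat +
      (f (.inl (g, 3))).toNat + (f (.inl (g, 4))).toNat + (f (.inl (g, 5))).toNat +
      (f (.inl (g, 6))).toNat + (f (.inl (g, 7))).toNat + (f (.inl (g, 8))).toNat +
      (f (.inl (g, 9))).toNat + (f (.inl (g, 10))).toNat + (f (.inl (g, 11))).toNat +
      (f (.inl (g, 12))).toNat + (f (.inl (g, 13))).toNat + (f (.inl (g, 14))).toNat +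
      (f (.inl (g, 15))).toNat + (f (.inl (g, 16))).toNat + (f (.inl (g, 17))).toNat +
      (f (.inl (g, 18))).toNat + (f (.inl (g, 19))).toNat + (f (.inl (g, 20))).toNat := by
    simp only [Fin.sum_univ_castSucc, Fin.sum_univ_zero, zero_add]
    rfl
  rw [hs]
  rw [c12, c13, c14, c15, c16, c17, c18, c19, c20]
  rw [c12, c20] at e0
  rw [c13, c18] at e1
  rw [c14, c15] at e2
  rw [c12, c13] at e3
  rw [c12, c14] at e4
  rw [c17, c19] at e5
  rw [c16, c19] at e6
  rw [c17, c18] at e7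
  rw [c14, c19] at e8
  rw [c15, c20] at e9
  rw [c13, c15] at e10
  rw [c18, c20] at e11
  exact local_check _ _ _ _ _ _ _ _ _ _ _ _ _ _ e0 e1 e2 e3 e4 e5 e6 e7 e8 e9 e10 e11

theorem lower (f : W → Bool) (hE : Eqs f) : 28 ≤ ∑ v : W, (f v).toNat := by
  rw [Fintype.sum_sum_type, Fintype.sum_prod_type, Fin.sum_univ_four, Fin.sum_univ_six]
  have g0 := gadget f hE 0
  have g1 := gadget f hE 1
  have g2 := gadget f hE 2
  have g3 := gadget f hE 3
  have t0 : f (.inr 0) = !(f (.inr 1) || f (.inl (0, 16)) || f (.inl (0, 17))) := hE _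
  have t1 : f (.inr 1) = !(f (.inr 0) || f (.inl (1, 16)) || f (.inl (1, 17))) := hE _
  have t2 : f (.inr 2) = !(f (.inr 3) || f (.inl (0, 16)) || f (.inl (1, 16))) := hE _
  have t3 : f (.inr 3) = !(f (.inr 2) || f (.inl (2, 16)) || f (.inl (3, 16))) := hE _
  have t4 : f (.inr 4) = !(f (.inr 5) || f (.inl (2, 16)) || f (.inl (2, 17))) := hE _
  have t5 : f (.inr 5) = !(f (.inr 4) || f (.inl (3, 16)) || f (.inl (3, 17))) := hE _
  have h := top_check _ _ _ _ _ _ _ _ _ _ _ _ _ _ t0 t1 t2 t3 t4 t5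
  change 6 + ((!f (.inr 0) && !f (.inr 2)) || f (.inl (0, 16)) || f (.inl (0, 17))).toNat ≤ _ at g0
  change 6 + ((!f (.inr 1) && !f (.inr 2)) || f (.inl (1, 16)) || f (.inl (1, 17))).toNat ≤ _ at g1
  change 6 + ((!f (.inr 4) && !f (.inr 3)) || f (.inl (2, 16)) || f (.inl (2, 17))).toNat ≤ _ at g2
  change 6 + ((!f (.inr 5) && !f (.inr 3)) || f (.inl (3, 16)) || f (.inl (3, 17))).toNat ≤ _ at g3
  omega

end Pool.Agent.X266.IDM
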