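import Mathlib
import Pool.Agent.X266.IDM.Data

/-!
# The matching, a small independent dominating set and a spanning tree
-/

set_option autoImplicit false

namespace Pool.Agent.X266.IDM

/-- The variables. -/
abbrev K := (Fin 4 × Fin 6) ⊕ Fin 3

/-- The positive literal of a variable. -/
def P : K → W
  | .inl (g, i) => .inl (g, ![0, 2, 4, 6, 8, 10] i)
  | .inr t => .inr (![0, 2, 4] t)

/-- The negative literal of a variable. -/
def N : K → W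
  | .inl (g, i) => .inl (g, ![1, 3, 5, 7, 9, 11] i)
  | .inr t => .inr (![1, 3, 5] t)

theorem nb_P : ∀ c : K, nb (P c) 0 = N c := by decide +kernel

theorem disj : ∀ c d : K, (P c = P d ∨ P c = N d ∨ N c = P d ∨ N c = N d) → c = d := by
  decide +kernel

theorem cov : ∀ v : W, ∀ i : Fin 3, (∃ c : K, v = P c ∨ v = N c) ∨
    (∃ c : K, nb v i = P c ∨ nb v i = N c) := by
  decide +kernel

/-- Distance from the vertex `inr 2`. -/
def dep : W → ℕ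
  | .inl (g, j) => (![![6, 5, 6, 7, 5, 4, 2, 3, 4, 5, 6, 5, 6, 6, 5, 6, 1, 3, 4, 3, 6],
      ![6, 5, 6, 7, 5, 4, 2, 3, 4, 5, 6, 5, 6, 6, 5, 6, 1, 3, 4, 3, 6],
      ![7, 6, 7, 8, 6, 5, 3, 4, 5, 6, 7, 6, 7, 7, 6, 7, 2, 4, 5, 4, 7],
      ![7, 6, 7, 8, 6, 5, 3, 4, 5, 6, 7, 6, 7, 7, 6, 7, 2, 4, 5, 4, 7]] :
        Fin 4 → Fin 21 → ℕ) g j
  | .inr t => (![2, 2, 0, 1, 3, 3] : Fin 6 → ℕ) t

theorem dep_zero : ∀ v : W, dep v = 0 → v = .inr 2 := by decide +kernel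

theorem dep_pos : ∀ v : W, dep v ≠ 0 → ∃ i : Fin 3, dep (nb v i) < dep v := by decide +kernel

/-- An independent dominating set with 28 vertices. -/
def s0 : W → Bool
  | .inl (g, j) => decide (((![![1, 0, 1, 0, 1, 0, 0, 1, 1, 0, 1, 0, 0, 0, 0, 0, 0, 0, 0, 0, 0],
      ![1, 0, 1, 0, 1, 0, 0, 1, 1, 0, 1, 0, 0, 0, 0, 0, 0, 0, 0, 0, 0],
      ![1, 0, 1, 0, 1, 0, 0, 1, 1, 0, 1, 0, 0, 0, 0, 0, 0, 0, 0, 0, 0],
      ![1, 0, 1, 0, 0, 1, 1, 0, 1, 0, 1, 0, 0, 0, 0, 0, 0, 0, 1, 0, 0]] :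
        Fin 4 → Fin 21 → ℕ) g j) = 1)
  | .inr t => decide ((![1, 0, 1, 0, 1, 0] : Fin 6 → ℕ) t = 1)

theorem s0_eqs : Eqs s0 := by
  have h : ∀ v, s0 v = !(s0 (nb v 0) || s0 (nb v 1) || s0 (nb v 2)) := by decide +kernel
  exact h

theorem s0_sum : ∑ v : W, (s0 v).toNat = 28 := by decide +kernel

end Pool.Agent.X266.IDM
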